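import Mathlib
import Pool.Agent.helper62.K3.Defs

/-! # hk:P9A (MP_90cd86_gt): the action of `(ℤ/2)^4` -/

noncomputable section

namespace Pool.Agent.helper62.K3

theorem P9A_pow (a b : ZMod 2) : (-1 : ℂ) ^ (a + b).val = (-1) ^ a.val * (-1) ^ b.val := by
  have h : ∀ a b : ZMod 2, (a + b).val % 2 = (a.val + b.val) % 2 := by decide
  rw [← pow_add, neg_one_pow_eq_pow_mod_two, h, ← neg_one_pow_eq_pow_mod_two]

theorem P9A_real (a : ZMod 2) : (starRingEnd ℂ) ((-1 : ℂ) ^ a.val) = (-1) ^ a.val := by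
  rw [map_pow, map_neg, map_one]

theorem P9A_add (v w : Fin 4 → ZMod 2) (i : Fin 6) : sg4 (v + w) i = sg4 v i * sg4 w i := by
  have h : (v + w) 0 + (v + w) 1 + (v + w) 2 + (v + w) 3 =
      (v 0 + v 1 + v 2 + v 3) + (w 0 + w 1 + w 2 + w 3) := by
    simp only [Pi.add_apply]
    ring
  fin_cases i
  · simp [sg4]
  · exact P9A_pow (v 0) (w 0)
  · exact P9A_pow (v 1) (w 1)
  · exact P9A_pow (v 2) (w 2)
  · exact P9A_pow (v 3) (w 3)
  · change (-1 : ℂ) ^ ((v + w) 0 + (v + w) 1 + (v + w) 2 + (v + w) 3).val =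
      (-1) ^ (v 0 + v 1 + v 2 + v 3).val * (-1) ^ (w 0 + w 1 + w 2 + w 3).val
    rw [h, P9A_pow]

theorem P9A_zero (i : Fin 6) : sg4 0 i = 1 := by
  fin_cases i <;> simp [sg4]

theorem P9A_sq (v : Fin 4 → ZMod 2) (i : Fin 6) : sg4 v i * sg4 v i = 1 := by
  rw [← P9A_add]
  have : v + v = 0 := by
    funext j
    exact CharTwo.add_self_eq_zero _
  rw [this, P9A_zero]

theorem P9A_conj (v : Fin 4 → ZMod 2) (i : Fin 6) : (starRingEnd ℂ) (sg4 v i) = sg4 v i := by
  fin_cases i
  · exact map_one _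
  · exact P9A_real (v 0)
  · exact P9A_real (v 1)
  · exact P9A_real (v 2)
  · exact P9A_real (v 3)
  · exact P9A_real (v 0 + v 1 + v 2 + v 3)

theorem P9A_norm (v : Fin 4 → ZMod 2) (i : Fin 6) : ‖sg4 v i‖ = 1 := by
  have h : ‖sg4 v i‖ * ‖sg4 v i‖ = 1 := by
    rw [← norm_mul, P9A_sq, norm_one]
  nlinarith [norm_nonneg (sg4 v i)]

/-- the map attached to `v` -/
def P9A_map (v : Fin 4 → ZMod 2) (T : X0) : X0 :=
  ⟨fun i j => sg4 v i * sg4 v j * T.1 i j, by
    obtain ⟨x, ⟨hx0, hx⟩, hn, hT⟩ := T.2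
    refine ⟨fun i => sg4 v i * x i, ⟨?_, ?_⟩, ?_, ?_⟩
    · intro h
      apply hx0
      funext i
      have h1 := congrFun h i
      simp only [Pi.zero_apply] at h1
      have h2 : sg4 v i * (sg4 v i * x i) = x i := by rw [← mul_assoc, P9A_sq, one_mul]
      rw [Pi.zero_apply, ← h2, h1, mul_zero]
    · intro m
      rw [← hx m]
      refine Finset.sum_congr rfl fun i _ => ?_
      have h2 : (sg4 v i * x i) ^ 2 = (sg4 v i * sg4 v i) * x i ^ 2 := by ring
      rw [h2, P9A_sq, one_mul]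
    · rw [← hn]
      refine Finset.sum_congr rfl fun i _ => ?_
      rw [norm_mul, P9A_norm, one_mul]
    · intro i j
      have h3 : T.1 i j = x i * (starRingEnd ℂ) (x j) := hT i j
      change sg4 v i * sg4 v j * T.1 i j = sg4 v i * x i * (starRingEnd ℂ) (sg4 v j * x j)
      rw [h3, map_mul, P9A_conj]
      ring⟩

theorem P9A_map_apply (v : Fin 4 → ZMod 2) (T : X0) (i j : Fin 6) :
    (P9A_map v T).1 i j = sg4 v i * sg4 v j * T.1 i j := rfl

theorem P9A_map_add (v w : Fin 4 → ZMod 2) (T : X0) :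
    P9A_map (v + w) T = P9A_map v (P9A_map w T) := by
  apply Subtype.ext
  funext i j
  rw [P9A_map_apply, P9A_map_apply, P9A_map_apply, P9A_add, P9A_add]
  ring

theorem P9A_map_zero (T : X0) : P9A_map 0 T = T := by
  apply Subtype.ext
  funext i j
  rw [P9A_map_apply, P9A_zero, P9A_zero, one_mul, one_mul]

theorem P9A_map_self (v : Fin 4 → ZMod 2) (T : X0) : P9A_map v (P9A_map v T) = T := by
  rw [← P9A_map_add]
  have : v + v = 0 := by
    funext j
    exact CharTwo.add_self_eq_zero _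
  rw [this, P9A_map_zero]

theorem P9A_cont (v : Fin 4 → ZMod 2) : Continuous (P9A_map v) := by
  apply Continuous.subtype_mk
  refine continuous_pi fun i => continuous_pi fun j => ?_
  exact continuous_const.mul
    ((continuous_apply j).comp ((continuous_apply i).comp continuous_subtype_val))

/-- hk:P9A the action of `(ℤ/2)^4` -/
theorem P9A : ∃ ρ : Multiplicative (Fin 4 → ZMod 2) →* (X0 ≃ₜ X0),
    ∀ (v : Fin 4 → ZMod 2) (T : X0) (i j : Fin 6),
      (ρ (Multiplicative.ofAdd v) T).1 i j = sg4 v i * sg4 v j * T.1 i j := by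
  refine ⟨MonoidHom.mk' (fun a =>
    { toFun := P9A_map (Multiplicative.toAdd a)
      invFun := P9A_map (Multiplicative.toAdd a)
      left_inv := P9A_map_self _
      right_inv := P9A_map_self _
      continuous_toFun := P9A_cont _
      continuous_invFun := P9A_cont _ }) ?_, fun v T i j => rfl⟩
  intro a b
  apply Homeomorph.ext
  intro T
  exact P9A_map_add _ _ T

end Pool.Agent.helper62.K3
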