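import Mathlib
import Pool.Agent.helper62.K3.Defs

/-! # hk:CI (MP_90cd86_gt): orbits of size 16 -/

noncomputable section

namespace Pool.Agent.helper62.K3

theorem CI {H : Type} [CommGroup H] [Finite H] (hH : Nat.card H = 2 ^ 5)
    (h2 : ∀ g : H, g * g = 1) {S : Type} [TopologicalSpace S] (ρ : H →* (S ≃ₜ S))
    (hu : ∀ (g g' : H) (x : S), g ≠ 1 → g' ≠ 1 → ρ g x = x → ρ g' x = x → g = g')
    (hf : {x | ∃ g : H, g ≠ 1 ∧ ρ g x = x}.Finite) :
    ∃ m : ℕ, {x | ∃ g : H, g ≠ 1 ∧ ρ g x = x}.ncard = 16 * m := by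
  classical
  set F : Set S := {x | ∃ g : H, g ≠ 1 ∧ ρ g x = x} with hF
  have hmul : ∀ (g h : H) (x : S), ρ (g * h) x = ρ g (ρ h x) := by
    intro g h x
    rw [map_mul]
    rfl
  have hone : ∀ x : S, ρ 1 x = x := by
    intro x
    rw [map_one]
    rfl
  have hinv : ∀ (h : H) (x : S), x ∈ F → ρ h x ∈ F := by
    rintro h x ⟨g, hg, hgx⟩
    refine ⟨g, hg, ?_⟩
    rw [← hmul, mul_comm, hmul, hgx]
  have hFf : Finite F := hf
  have := Fintype.ofFinite F
  have := Fintype.ofFinite H
  let act : MulAction H F :=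
    { smul := fun h x => ⟨ρ h x, hinv h x x.2⟩
      one_smul := fun x => Subtype.ext (hone x)
      mul_smul := fun g h x => Subtype.ext (hmul g h x) }
  have hsm : ∀ (h : H) (x : F), ((h • x : F) : S) = ρ h x := fun _ _ => rfl
  have hst : ∀ x : F, Fintype.card (MulAction.stabilizer H x) = 2 := by
    intro x
    obtain ⟨g, hg, hgx⟩ := x.2
    have h1 : (MulAction.stabilizer H x : Set H) = {1, g} := by
      ext h
      constructor
      · intro hh
        have h3 : ρ h x = x := by
          rw [← hsm]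
          exact congrArg Subtype.val (MulAction.mem_stabilizer_iff.1 hh)
        by_cases h4 : h = 1
        · exact Or.inl h4
        · exact Or.inr (hu h g x h4 hg h3 hgx)
      · rintro (hh | hh)
        · rw [hh]; exact Subgroup.one_mem _
        · rw [hh]
          exact MulAction.mem_stabilizer_iff.2 (Subtype.ext hgx)
    have h3 : Nat.card (MulAction.stabilizer H x) = 2 := by
      have h4 : Nat.card (MulAction.stabilizer H x) =
          (MulAction.stabilizer H x : Set H).ncard := rfl
      rw [h4, h1, Set.ncard_pair (Ne.symm hg)]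
    rw [← Nat.card_eq_fintype_card, h3]
  have hc := MulAction.card_eq_sum_card_group_div_card_stabilizer H F
  have h5 : Fintype.card H = 32 := by
    rw [← Nat.card_eq_fintype_card, hH]; norm_num
  simp only [hst, h5] at hc
  rw [Finset.sum_const, smul_eq_mul, mul_comm, ← Nat.card_eq_fintype_card] at hc
  exact ⟨_, hc⟩

end Pool.Agent.helper62.K3
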