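import Mathlib
import Pool.Agent.helper62.K3.Defs
import Pool.Agent.helper18.HK.CG
import Pool.Agent.helper33.HK.GA
import Pool.Agent.helper33.HK.GB
import Pool.Agent.helper33.HK.GE
import Pool.Agent.helper33.HK.LI
import Pool.Agent.helper97.HK.CI
import Pool.Agent.helper15.HK.CH

/-! # hk:SF (MP_90cd86_gt): symplectic involutions on a K3 surface -/

open scoped Manifold ContDiff

noncomputable section

namespace Pool.Agent.helper62.K3

section
variable {S : Type} [TopologicalSpace S] [ChartedSpace (ℂ × ℂ) S]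

/-- the derivative of the identity -/
theorem SF_id (p : S) : locD (fun x : S => x) p = ContinuousLinearMap.id ℂ (ℂ × ℂ) := by
  unfold locD
  have hev : (fun z => chartAt (ℂ × ℂ) p ((chartAt (ℂ × ℂ) p).symm z)) =ᶠ[nhds
      (chartAt (ℂ × ℂ) p p)] (fun z => z) := by
    have h1 : (chartAt (ℂ × ℂ) p).target ∈ nhds (chartAt (ℂ × ℂ) p p) :=
      (chartAt (ℂ × ℂ) p).open_target.mem_nhds (mem_chart_target (ℂ × ℂ) p)
    filter_upwards [h1] with z hz
    exact (chartAt (ℂ × ℂ) p).right_inv hz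
  rw [hev.fderiv_eq]
  exact fderiv_id'

/-- isolated fixed points on a compact space are finitely many -/
theorem SF_finite [CompactSpace S] [T2Space S] (g : S → S) (hg : Continuous g)
    (h : ∀ p, g p = p → ∃ U ∈ nhds p, ∀ x ∈ U, g x = x → x = p) : {x | g x = x}.Finite := by
  classical
  have hK : IsCompact {x | g x = x} := (isClosed_eq hg continuous_id).isCompact
  choose! U hU hU2 using h
  obtain ⟨t, ht, htK⟩ := hK.elim_nhds_subcover U (fun x hx => hU x hx)
  refine Set.Finite.subset t.finite_toSet ?_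
  intro x hx
  obtain ⟨p, hp, hxp⟩ := Set.mem_iUnion₂.1 (htK hx)
  rw [hU2 p (ht p hp) x hxp hx]
  exact hp

/-- module SF, with the statement of module CH as a hypothesis -/
theorem SF_of
    (CH : ∀ {S : Type} [TopologicalSpace S] [ChartedSpace (ℂ × ℂ) S]
      [IsManifold 𝓘(ℂ, ℂ × ℂ) ω S] [CompactSpace S] [T2Space S] [ConnectedSpace S]
      (_ : HasTrivialCanonical S) {G : Type} [Group G] (ρ : G →* (S ≃ₜ S))
      (_ : ∀ g, ContMDiff 𝓘(ℂ, ℂ × ℂ) 𝓘(ℂ, ℂ × ℂ) ω (ρ g)),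
      ∃ c : G →* ℂ, ∀ (g : G) (p : S), ρ g p = p → (locD (ρ g) p).det = c g)
    {S : Type} [TopologicalSpace S] [ChartedSpace (ℂ × ℂ) S] (hS : IsK3Surface S)
    (ρ : Multiplicative (Fin 6 → ZMod 2) →* (S ≃ₜ S)) (hi : Function.Injective ρ)
    (hρ : ∀ g, ContMDiff 𝓘(ℂ, ℂ × ℂ) 𝓘(ℂ, ℂ × ℂ) ω (ρ g)) :
    ∃ (H : Type) (_ : CommGroup H) (_ : Finite H) (ρ' : H →* (S ≃ₜ S)) (F : Set S),
      (∀ g : H, g * g = 1) ∧ Nat.card H = 2 ^ 5 ∧ F.Finite ∧ (∀ g : H, ∀ x ∈ F, ρ' g x ∈ F) ∧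
      (∀ x, x ∉ F → ∀ g : H, ρ' g x = x → g = 1) ∧ ∃ m : ℕ, F.ncard = 16 * m := by
  classical
  have hcomp := hS.compact
  have hT2 := hS.hausdorff
  have hconn := hS.connected
  have hman := hS.holomorphic
  obtain ⟨c, hc⟩ := CH hS.canonical ρ hρ
  obtain ⟨H, hH, hcH⟩ := CG c
  have hsq : ∀ g : Multiplicative (Fin 6 → ZMod 2), g * g = 1 := by
    intro g
    have : Multiplicative.toAdd (g * g) = 0 := by
      rw [toAdd_mul]
      funext i
      exact CharTwo.add_self_eq_zero _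
    exact this
  have hmul : ∀ (g h : Multiplicative (Fin 6 → ZMod 2)) (x : S), ρ (g * h) x = ρ g (ρ h x) := by
    intro g h x
    rw [map_mul]
    rfl
  have hinv : ∀ (g : Multiplicative (Fin 6 → ZMod 2)) (x : S), ρ g (ρ g x) = x := by
    intro g x
    rw [← hmul, hsq, map_one]
    rfl
  -- an involution with derivative the identity at a fixed point is trivial
  have htriv : ∀ (g : Multiplicative (Fin 6 → ZMod 2)) (p : S), ρ g p = p →
      locD (ρ g) p = ContinuousLinearMap.id ℂ (ℂ × ℂ) → g = 1 := by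
    intro g p hp hD
    have h1 := GE (ρ g) (hρ g) (hinv g) p hp hD
    apply hi
    rw [map_one]
    apply Homeomorph.ext
    exact h1
  -- at fixed points nontrivial elements of `H` act by `-1`
  have hneg : ∀ g ∈ H, g ≠ 1 → ∀ p : S, ρ g p = p →
      locD (ρ g) p = -ContinuousLinearMap.id ℂ (ℂ × ℂ) := by
    intro g hg hg1 p hp
    apply LI
    · have h1 := GA (ρ g) (ρ g) (hρ g) (hρ g) p hp hp
      have h2 : (fun x => ρ g (ρ g x)) = (fun x : S => x) := funext (hinv g)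
      rw [h2, SF_id] at h1
      intro v
      have h3 := congrArg (fun L : (ℂ × ℂ) →L[ℂ] (ℂ × ℂ) => L v) h1
      exact h3.symm
    · rw [hc g p hp, hcH g hg]
    · intro h
      exact hg1 (htriv g p hp h)
  refine ⟨H, inferInstance, inferInstance, ρ.comp H.subtype,
    {x | ∃ g : H, g ≠ 1 ∧ (ρ.comp H.subtype) g x = x}, ?_, hH, ?_, ?_, ?_, ?_⟩
  · intro g
    exact Subtype.ext (hsq g)
  · have h1 : {x | ∃ g : H, g ≠ 1 ∧ (ρ.comp H.subtype) g x = x} =
        ⋃ g : {g : H // g ≠ 1}, {x | ρ (g : H) x = x} := by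
      ext x
      simp only [Set.mem_setOf_eq, Set.mem_iUnion]
      constructor
      · rintro ⟨g, hg, hx⟩
        exact ⟨⟨g, hg⟩, hx⟩
      · rintro ⟨⟨g, hg⟩, hx⟩
        exact ⟨g, hg, hx⟩
    rw [h1]
    refine Set.finite_iUnion fun g => ?_
    refine SF_finite _ (ρ (g : H)).continuous fun p hp => ?_
    exact GB _ (hρ _) p hp (hneg _ (g : H).2 (fun h => g.2 (Subtype.ext h)) p hp)
  · rintro h x ⟨g, hg, hgx⟩
    refine ⟨g, hg, ?_⟩
    change ρ g (ρ h x) = ρ h x
    rw [← hmul, mul_comm, hmul]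
    exact congrArg _ hgx
  · intro x hx g hgx
    by_contra hg
    exact hx ⟨g, hg, hgx⟩
  · refine CI hH (fun g => Subtype.ext (hsq g)) (ρ.comp H.subtype) ?_ ?_
    · intro g g' x hg hg' hgx hgx'
      have h1 := hneg g g.2 (fun h => hg (Subtype.ext h)) x hgx
      have h2 := hneg g' g'.2 (fun h => hg' (Subtype.ext h)) x hgx'
      have h3 := GA (ρ g) (ρ g') (hρ g) (hρ g') x hgx hgx'
      have h4 : (fun x => ρ (g : Multiplicative (Fin 6 → ZMod 2)) (ρ g' x)) =
          (ρ ((g : Multiplicative (Fin 6 → ZMod 2)) * g') : S → S) := by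
        funext y
        exact (hmul _ _ y).symm
      rw [h4, h1, h2] at h3
      have h5 : ((-ContinuousLinearMap.id ℂ (ℂ × ℂ)).comp (-ContinuousLinearMap.id ℂ (ℂ × ℂ))) =
          ContinuousLinearMap.id ℂ (ℂ × ℂ) := by
        ext v <;> simp
      rw [h5] at h3
      have h6 := htriv _ x (by
        rw [hmul]
        change (ρ (g : Multiplicative (Fin 6 → ZMod 2))) ((ρ.comp H.subtype) g' x) = x
        rw [hgx']
        exact hgx) h3
      apply Subtype.ext
      have h7 : (g : Multiplicative (Fin 6 → ZMod 2)) = g' := by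
        calc (g : Multiplicative (Fin 6 → ZMod 2)) = g * (g' * g') := by rw [hsq, mul_one]
          _ = (g * g') * g' := by rw [mul_assoc]
          _ = g' := by rw [h6, one_mul]
      exact h7
    · -- finiteness again
      have h1 : {x | ∃ g : H, g ≠ 1 ∧ (ρ.comp H.subtype) g x = x} =
          ⋃ g : {g : H // g ≠ 1}, {x | ρ (g : H) x = x} := by
        ext x
        simp only [Set.mem_setOf_eq, Set.mem_iUnion]
        constructor
        · rintro ⟨g, hg, hx⟩
          exact ⟨⟨g, hg⟩, hx⟩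
        · rintro ⟨⟨g, hg⟩, hx⟩
          exact ⟨g, hg, hx⟩
      rw [h1]
      refine Set.finite_iUnion fun g => ?_
      refine SF_finite _ (ρ (g : H)).continuous fun p hp => ?_
      exact GB _ (hρ _) p hp (hneg _ (g : H).2 (fun h => g.2 (Subtype.ext h)) p hp)

/-- module SF -/
theorem SF {S : Type} [TopologicalSpace S] [ChartedSpace (ℂ × ℂ) S] (hS : IsK3Surface S)
    (ρ : Multiplicative (Fin 6 → ZMod 2) →* (S ≃ₜ S)) (hi : Function.Injective ρ)
    (hρ : ∀ g, ContMDiff 𝓘(ℂ, ℂ × ℂ) 𝓘(ℂ, ℂ × ℂ) ω (ρ g)) :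
    ∃ (H : Type) (_ : CommGroup H) (_ : Finite H) (ρ' : H →* (S ≃ₜ S)) (F : Set S),
      (∀ g : H, g * g = 1) ∧ Nat.card H = 2 ^ 5 ∧ F.Finite ∧ (∀ g : H, ∀ x ∈ F, ρ' g x ∈ F) ∧
      (∀ x, x ∉ F → ∀ g : H, ρ' g x = x → g = 1) ∧ ∃ m : ℕ, F.ncard = 16 * m :=
  SF_of (fun {_} [_] [_] [_] [_] [_] [_] hc {_} [_] ρ hρ => CH hc ρ hρ) hS ρ hi hρ

end

end Pool.Agent.helper62.K3
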