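import Mathlib
import Pool.Agent.helper62.K3.Defs

/-! # hk:UD (MP_90cd86_gt): cohomology near a finite set, degree one -/

noncomputable section

namespace Pool.Agent.helper62.K3

theorem UD_dd_single {X : Type} (g : Finset X → ZMod 2) (x : X) : dd g {x} = g ∅ := by
  classical
  change ∑ y ∈ ({x} : Finset X), g (({x} : Finset X).erase y) = g ∅
  rw [Finset.sum_singleton]
  congr 1
  ext z
  simp

theorem UD_dd_pair {X : Type} (g : Finset X → ZMod 2) (x y : X) (hxy : x ≠ y) :
    dd g (open Classical in ({x, y} : Finset X)) = g {x} + g {y} := by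
  classical
  change ∑ z ∈ ({x, y} : Finset X), g (({x, y} : Finset X).erase z) = g {x} + g {y}
  rw [Finset.sum_pair hxy]
  have h1 : ({x, y} : Finset X).erase x = {y} := by
    ext z
    simp only [Finset.mem_erase, Finset.mem_insert, Finset.mem_singleton]
    constructor
    · rintro ⟨h, h' | h'⟩
      · exact absurd h' h
      · exact h'
    · rintro rfl
      exact ⟨Ne.symm hxy, Or.inr rfl⟩
  have h2 : ({x, y} : Finset X).erase y = {x} := by
    ext z
    simp only [Finset.mem_erase, Finset.mem_insert, Finset.mem_singleton]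
    constructor
    · rintro ⟨h, h' | h'⟩
      · exact h'
      · exact absurd h' h
    · rintro rfl
      exact ⟨hxy, Or.inl rfl⟩
  rw [h1, h2, add_comm]

section
variable {X : Type} [MetricSpace X]

/-- points of a finite set are separated -/
theorem UD_sep (F : Set X) (hF : F.Finite) :
    ∃ r > 0, ∀ p ∈ F, ∀ q ∈ F, dist p q < r → p = q := by
  classical
  have := hF.fintype
  by_cases h : ∃ p q : F, p ≠ q
  · obtain ⟨p0, q0, h0⟩ := h
    set T : Finset (F × F) := Finset.univ.filter (fun z => z.1 ≠ z.2) with hT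
    have hne : T.Nonempty := ⟨(p0, q0), by rw [hT, Finset.mem_filter]; exact ⟨Finset.mem_univ _, h0⟩⟩
    obtain ⟨z, hz, hmin⟩ := Finset.exists_min_image T (fun z => dist (z.1 : X) (z.2 : X)) hne
    rw [hT, Finset.mem_filter] at hz
    refine ⟨dist (z.1 : X) (z.2 : X), dist_pos.2 fun h => hz.2 (Subtype.ext h), ?_⟩
    intro p hp q hq hpq
    by_contra hne'
    have h1 := hmin (⟨p, hp⟩, ⟨q, hq⟩) (by
      rw [hT, Finset.mem_filter]
      exact ⟨Finset.mem_univ _, fun h => hne' (congrArg Subtype.val h)⟩)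
    exact absurd hpq (not_lt.2 h1)
  · push Not at h
    refine ⟨1, one_pos, fun p hp q hq _ => ?_⟩
    exact congrArg Subtype.val (h ⟨p, hp⟩ ⟨q, hq⟩)

theorem UD_near_single (F : Set X) (p : X) (hp : p ∈ F) (δ : ℝ) (hδ : 0 < δ) :
    Near F δ {p} ∧ Small δ ({p} : Finset X) := by
  constructor
  · intro x hx
    rw [Finset.mem_singleton] at hx
    exact ⟨p, hp, by rw [hx, dist_self]; exact hδ⟩
  · intro x hx y hy
    rw [Finset.mem_singleton] at hx hy
    rw [hx, hy, dist_self]
    exact hδ

theorem UD_Vrel_empty (f : Finset X → ZMod 2) : f ∈ Vrel (∅ : Set X) ↔ f ∅ = 0 := by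
  constructor
  · rintro ⟨δ, _, h⟩
    exact h ∅ (fun x hx => absurd hx (Finset.notMem_empty x))
  · intro h
    refine ⟨1, one_pos, fun σ hσ => ?_⟩
    have : σ = ∅ := by
      rw [Finset.eq_empty_iff_forall_notMem]
      intro x hx
      obtain ⟨p, hp, _⟩ := hσ x hx
      exact hp
    rw [this, h]

/-- evaluation at the points of `F` -/
def UD_ev (F : Set X) : (Cyc (dd (X := X)) (ZF F) (Vrel ∅) 1) →ₗ[ZMod 2] (F → ZMod 2) where
  toFun f p := (f : Finset X → ZMod 2) {(p : X)}
  map_add' _ _ := rfl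
  map_smul' _ _ := rfl

theorem UD_ker (F : Set X) : LinearMap.ker (UD_ev F) =
    (Bdy (dd (X := X)) (ZF F) (Vrel ∅) 1).submoduleOf (Cyc (dd (X := X)) (ZF F) (Vrel ∅) 1) := by
  classical
  ext ⟨f, hf⟩
  rw [LinearMap.mem_ker, Submodule.submoduleOf, Submodule.mem_comap, Submodule.subtype_apply]
  simp only
  constructor
  · intro h
    have h0 : ∀ p ∈ F, f {p} = 0 := fun p hp => congrFun h ⟨p, hp⟩
    obtain ⟨hf1, hf2⟩ := Submodule.mem_inf.1 hf
    obtain ⟨δ, hδ, hd⟩ := Submodule.mem_comap.1 hf2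
    refine Submodule.mem_sup_right (Submodule.mem_inf.2 ⟨hf1, δ, hδ, ?_⟩)
    intro σ hσ hs hc
    obtain ⟨x, rfl⟩ := Finset.card_eq_one.1 hc
    obtain ⟨p, hp, hxp⟩ := hσ x (Finset.mem_singleton_self x)
    by_cases hxp2 : x = p
    · rw [hxp2]; exact h0 p hp
    · have h1 := hd (open Classical in ({x, p} : Finset X)) (by
        intro z hz
        rw [Finset.mem_insert, Finset.mem_singleton] at hz
        rcases hz with rfl | rfl
        · exact ⟨p, hp, hxp⟩
        · exact ⟨z, hp, by rw [dist_self]; exact hδ⟩) (by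
        intro z hz w hw
        rw [Finset.mem_insert, Finset.mem_singleton] at hz hw
        rcases hz with rfl | rfl <;> rcases hw with rfl | rfl
        · rw [dist_self]; exact hδ
        · exact hxp
        · rw [dist_comm]; exact hxp
        · rw [dist_self]; exact hδ) (by rw [Finset.card_pair hxp2])
      have h2 := UD_dd_pair f x p hxp2
      rw [h2, h0 p hp, add_zero] at h1
      exact h1
  · intro h
    obtain ⟨a, ha, b, hb, hab⟩ := Submodule.mem_sup.1 h
    obtain ⟨g, hg, rfl⟩ := (Submodule.mem_map).1 ha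
    obtain ⟨_, δ, hδ, hb2⟩ := Submodule.mem_inf.1 hb
    funext p
    change f {(p : X)} = 0
    rw [← hab, Pi.add_apply, UD_dd_single, (UD_Vrel_empty g).1 hg, zero_add]
    obtain ⟨h1, h2⟩ := UD_near_single F p p.2 δ hδ
    exact hb2 _ h1 h2 (Finset.card_singleton _)

theorem UD_surj (F : Set X) (hF : F.Finite) : Function.Surjective (UD_ev F) := by
  classical
  intro a
  obtain ⟨r, hr, hsep⟩ := UD_sep F hF
  set b : X → ZMod 2 := fun x => if h : ∃ p : F, dist x (p : X) < r / 3 then a h.choose else 0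
    with hb
  have hbp : ∀ (x : X) (p : F), dist x (p : X) < r / 3 → b x = a p := by
    intro x p hxp
    have h : ∃ p : F, dist x (p : X) < r / 3 := ⟨p, hxp⟩
    rw [hb]
    simp only
    rw [dif_pos h]
    congr 1
    apply Subtype.ext
    apply hsep _ h.choose.2 _ p.2
    have h1 := h.choose_spec
    have h2 := dist_triangle_left (h.choose : X) (p : X) x
    linarith
  set f : Finset X → ZMod 2 := fun σ => if h : ∃ x, σ = {x} then b h.choose else 0 with hfdef
  have hf1 : ∀ x, f {x} = b x := by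
    intro x
    have h : ∃ y, ({x} : Finset X) = {y} := ⟨x, rfl⟩
    rw [hfdef]
    simp only
    rw [dif_pos h]
    congr 1
    exact (Finset.singleton_injective h.choose_spec).symm
  have hf0 : f ∅ = 0 := by
    rw [hfdef]
    simp only
    rw [dif_neg]
    rintro ⟨x, hx⟩
    exact absurd hx.symm (Finset.singleton_ne_empty x)
  have hcyc : f ∈ Cyc (dd (X := X)) (ZF F) (Vrel ∅) 1 := by
    refine Submodule.mem_inf.2 ⟨(UD_Vrel_empty f).2 hf0, Submodule.mem_comap.2 ?_⟩
    refine ⟨r / 3, by positivity, ?_⟩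
    intro σ hσ hs hc
    obtain ⟨x, y, hxy, hσe⟩ := Finset.card_eq_two.1 hc
    have hσ2 : σ = (open Classical in ({x, y} : Finset X)) := by
      rw [hσe]
    have hx : x ∈ σ := by rw [hσe]; simp
    have hy : y ∈ σ := by rw [hσe]; simp
    rw [hσ2, UD_dd_pair f x y hxy, hf1, hf1]
    obtain ⟨p, hp, hxp⟩ := hσ x hx
    obtain ⟨q, hq, hyq⟩ := hσ y hy
    have hd := hs x hx y hy
    have hpq : p = q := by
      apply hsep p hp q hq
      have h1 := dist_triangle_left p q x
      have h2 := dist_triangle x y q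
      linarith
    rw [hbp x ⟨p, hp⟩ hxp, hbp y ⟨q, hq⟩ hyq]
    subst hpq
    exact CharTwo.add_self_eq_zero _
  refine ⟨⟨f, hcyc⟩, ?_⟩
  funext p
  change f {(p : X)} = a p
  rw [hf1, hbp (p : X) p (by rw [dist_self]; positivity)]

end

section
variable {X : Type} [MetricSpace X] [CompactSpace X]

theorem UD (lc : LC X) (F : Set X) (hF : F.Finite) :
    Module.Finite (ZMod 2) (Coh (dd (X := X)) (ZF F) (Vrel ∅) 1) ∧
    Module.finrank (ZMod 2) (Coh (dd (X := X)) (ZF F) (Vrel ∅) 1) = F.ncard := by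
  classical
  have := hF.fintype
  let e1 : Coh (dd (X := X)) (ZF F) (Vrel ∅) 1 ≃ₗ[ZMod 2]
      ((Cyc (dd (X := X)) (ZF F) (Vrel ∅) 1) ⧸ LinearMap.ker (UD_ev F)) :=
    Submodule.quotEquivOfEq _ _ (UD_ker F).symm
  let e2 := (UD_ev F).quotKerEquivOfSurjective (UD_surj F hF)
  let e := e1.trans e2
  constructor
  · exact Module.Finite.equiv e.symm
  · rw [e.finrank_eq, Module.finrank_fintype_fun_eq_card, ← Nat.card_eq_fintype_card]
    rfl

end

end Pool.Agent.helper62.K3
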